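import Pool.Agent.Lib.H8.CeAlg
import Pool.Agent.Lib.H8.Orc

/-!
The pc-degree of a semirecursive set is a single degree for operators that are both s and pc.
-/

namespace Pool.Agent.Results.MP_9a6b8c_lc.Yes

open Pool.Agent.Lib.H8 Arith CList

/-- `A` is r.e.: the domain of a code. -/
def RE (A : Set ℕ) : Prop :=
  ∃ e, A = {x | ((Denumerable.ofNat Nat.Partrec.Code e).eval x).Dom}

/-- The value of the operator `P` (a set of coded pairs) on `B`; `D u` is the set of bits of `u`. -/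
def app (P B : Set ℕ) : Set ℕ :=
  {x | ∃ u, Nat.pair x u ∈ P ∧ ∀ i, u.testBit i = true → i ∈ B}

/-- The reducibility given by the class `r` of operators. -/
def Le (r : Set (Set ℕ)) (A B : Set ℕ) : Prop := ∃ P ∈ r, A = app P B

/-- Equivalence for the class `r`. -/
def Eqv (r : Set (Set ℕ)) (A B : Set ℕ) : Prop := Le r A B ∧ Le r B A

/-- `r` gives an e-reducibility. -/
def ERed (r : Set (Set ℕ)) : Prop :=
  (∀ P ∈ r, RE P) ∧ (∀ A, Le r A A) ∧ ∀ A B C, Le r A B → Le r B C → Le r A C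

/-- The degree of the empty set contains every r.e. set. -/
def Proper (r : Set (Set ℕ)) : Prop := ∀ A, RE A → Eqv r A ∅

/-- pc-operators. -/
def pc : Set (Set ℕ) := {P | RE P ∧ ∀ x u v, Nat.pair x u ∈ P → Nat.pair x v ∈ P → u = v}

/-- Operators that are both pc-operators and s-operators. -/
def spc : Set (Set ℕ) :=
  {P | P ∈ pc ∧ ∀ x u, Nat.pair x u ∈ P →
    ∀ i j, u.testBit i = true → u.testBit j = true → i = j}

variable {α : Type} [Primcodable α]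

lemma mk {R : ℕ × ℕ → Prop} (h : Sig 1 (ℕ × ℕ) R) :
    ∃ P, RE P ∧ ∀ x u, Nat.pair x u ∈ P ↔ R (x, u) := by
  obtain ⟨s, -, e⟩ := CeAlg.w_idx (β := ℕ) (A := fun p => R (p.2.unpair.1, p.2.unpair.2))
    (h.comp ((u1.comp Computable.snd).pair (u2.comp Computable.snd)))
  exact ⟨CeAlg.W (s 0), ⟨_, rfl⟩, fun x u => by simp [e]⟩

lemma sre {A : Set ℕ} (h : RE A) {x : α → ℕ} (hx : Computable x) :
    Sig 1 α fun a => x a ∈ A := by
  obtain ⟨e, rfl⟩ := h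
  exact CeAlg.w_sig (Computable.const e) hx

lemma mem {P : Set ℕ} (h : RE P) {x u : α → ℕ} (hx : Computable x) (hu : Computable u) :
    Sig 1 α fun a => Nat.pair (x a) (u a) ∈ P :=
  sre h (Primrec₂.natPair.to_comp.comp hx hu)

lemma bit {u i : α → ℕ} (hu : Computable u) (hi : Computable i) :
    Sig 1 α fun a => (u a).testBit (i a) = true :=
  CeAlg.cs (cp (p := fun q : ℕ × ℕ => q.1.testBit q.2 = true) Orc.testBit_prim.computablePred
    (hu.pair hi))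

lemma lt_bit {u i : ℕ} (h : u.testBit i = true) : i < u :=
  Nat.lt_two_pow_self.trans_le (Nat.ge_two_pow_of_testBit h)

lemma allbit {A : α × ℕ → Prop} (h : Sig 1 (α × ℕ) A) {u : α → ℕ} (hu : Computable u) :
    Sig 1 α fun a => ∀ i, (u a).testBit i = true → A (a, i) := by
  have h1 : ComputablePred fun q : α × ℕ => ¬ (u q.1).testBit q.2 = true :=
    (cp (p := fun q : ℕ × ℕ => q.1.testBit q.2 = true) Orc.testBit_prim.computablePred
      ((hu.comp Computable.fst).pair Computable.snd)).not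
  exact (((CeAlg.cs h1).or h).ball hu).of_eq fun a =>
    ⟨fun k i hi => (k i (lt_bit hi)).resolve_left (not_not.2 hi), fun k i _ => by
      by_cases hi : (u a).testBit i = true
      · exact Or.inr (k i hi)
      · exact Or.inl hi⟩

lemma seq {f g : α → ℕ} (hf : Computable f) (hg : Computable g) : Sig 1 α fun a => f a = g a :=
  CeAlg.cs (ceq hf hg)

lemma num {S : Set ℕ} (h : S.Finite) : ∃ w : ℕ, ∀ j, w.testBit j = true ↔ j ∈ S := by
  induction S, h using Set.Finite.induction_on with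
  | empty => exact ⟨0, by simp⟩
  | @insert a S _ _ ih =>
    obtain ⟨w, hw⟩ := ih
    exact ⟨2 ^ a ||| w, fun j => by
      rw [Nat.testBit_or, Bool.or_eq_true, hw, Nat.testBit_two_pow, decide_eq_true_eq,
        Set.mem_insert_iff, eq_comm]⟩

lemma fin (u : ℕ) : {i | u.testBit i = true}.Finite :=
  (Set.finite_lt_nat u).subset fun _ => lt_bit

lemma beq {u v : ℕ} (h : ∀ j, u.testBit j = true ↔ v.testBit j = true) : u = v :=
  Nat.eq_of_testBit_eq fun j => Bool.eq_iff_iff.2 (h j)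

lemma c1 {β : Type} [Primcodable β] {f : α → ℕ} (h : Computable f) :
    Computable fun q : α × β => f q.1 := h.comp Computable.fst

lemma comp {P Q : Set ℕ} (hP : P ∈ pc) (hQ : Q ∈ pc) :
    ∃ T ∈ pc, (∀ C, app P (app Q C) = app T C) ∧ (P ∈ spc → Q ∈ spc → T ∈ spc) := by
  have s := @Computable.snd
  have f := @Computable.fst
  have h : Sig 1 (ℕ × ℕ) fun p => ∃ u, Nat.pair p.1 u ∈ P ∧
      (∀ i, u.testBit i = true → ∃ v, Nat.pair i v ∈ Q ∧
        ∀ j, v.testBit j = true → p.2.testBit j = true) ∧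
      ∀ j, p.2.testBit j = true → ∃ i v, u.testBit i = true ∧ Nat.pair i v ∈ Q ∧
        v.testBit j = true :=
    Sig.ex ((mem hP.1 (c1 f) s).and
      ((allbit (Sig.ex ((mem hQ.1 (c1 s) s).and
        (allbit (bit (c1 (c1 (c1 (c1 s)))) s) s))) s).and
      (allbit (Sig.ex (Sig.ex ((bit (c1 (c1 (c1 s))) (c1 s)).and
        ((mem hQ.1 (c1 s) s).and (bit s (c1 (c1 s))))))) (c1 s))))
  obtain ⟨T, hT, e⟩ := mk h
  have key : ∀ x w, Nat.pair x w ∈ T → ∃ u, Nat.pair x u ∈ P ∧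
      (∀ i, u.testBit i = true → ∃ v, Nat.pair i v ∈ Q) ∧
      ∀ j, w.testBit j = true ↔ ∃ i v, u.testBit i = true ∧ Nat.pair i v ∈ Q ∧
        v.testBit j = true := by
    intro x w hw
    obtain ⟨u, a, b, c⟩ := (e x w).1 hw
    refine ⟨u, a, fun i hi => (b i hi).imp fun _ => And.left, fun j => ⟨c j, ?_⟩⟩
    rintro ⟨i, v, k1, k2, k3⟩
    obtain ⟨v', k4, k5⟩ := b i k1
    exact k5 j (hQ.2 _ _ _ k2 k4 ▸ k3)
  have hpc : T ∈ pc := ⟨hT, fun x w w' k k' => by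
    obtain ⟨u, a, -, c⟩ := key x w k
    obtain ⟨u', a', -, c'⟩ := key x w' k'
    obtain rfl := hP.2 _ _ _ a a'
    exact beq fun j => (c j).trans (c' j).symm⟩
  refine ⟨T, hpc, fun C => Set.ext fun x => ⟨?_, ?_⟩, fun h1 h2 => ⟨hpc, ?_⟩⟩
  · rintro ⟨u, a, b⟩
    choose! v hv using b
    obtain ⟨w, hw⟩ := num ((fin u).biUnion fun i _ => fin (v i))
    simp only [Set.mem_iUnion, Set.mem_ofPred_eq, exists_prop] at hw
    refine ⟨w, (e x w).2 ⟨u, a, fun i hi => ⟨v i, (hv i hi).1, fun j hj => (hw j).2 ⟨i, hi, hj⟩⟩,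
      fun j hj => ?_⟩, fun j hj => ?_⟩
    · obtain ⟨i, hi, hj⟩ := (hw j).1 hj
      exact ⟨i, v i, hi, (hv i hi).1, hj⟩
    · obtain ⟨i, hi, hj⟩ := (hw j).1 hj
      exact (hv i hi).2 j hj
  · rintro ⟨w, a, b⟩
    obtain ⟨u, a1, a2, a3⟩ := key x w a
    refine ⟨u, a1, fun i hi => ?_⟩
    obtain ⟨v, hv⟩ := a2 i hi
    exact ⟨v, hv, fun j hj => b j ((a3 j).2 ⟨i, v, hi, hv, hj⟩)⟩
  · intro x w hw j j' k k'
    obtain ⟨u, a1, -, a3⟩ := key x w hw
    obtain ⟨i, v, b1, b2, b3⟩ := (a3 j).1 k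
    obtain ⟨i', v', b1', b2', b3'⟩ := (a3 j').1 k'
    obtain rfl := h1.2 _ _ a1 _ _ b1 b1'
    obtain rfl := hQ.2 _ _ _ b2 b2'
    exact h2.2 _ _ b2 _ _ b3 b3'

lemma ident : ∃ I ∈ spc, ∀ A, A = app I A := by
  have s := @Computable.snd
  have f := @Computable.fst
  have h : Sig 1 (ℕ × ℕ) fun p => (∀ j, p.2.testBit j = true → j = p.1) ∧
      p.2.testBit p.1 = true := (allbit (seq s (c1 f)) s).and (bit s f)
  obtain ⟨I, hI, e⟩ := mk h
  refine ⟨I, ⟨⟨hI, fun x u v a b => ?_⟩, fun x u a i j k k' => ?_⟩,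
    fun A => Set.ext fun x => ⟨fun hx => ?_, ?_⟩⟩
  · obtain ⟨a1, a2⟩ := (e _ _).1 a
    obtain ⟨b1, b2⟩ := (e _ _).1 b
    exact beq fun j => ⟨fun k => a1 j k ▸ b2, fun k => b1 j k ▸ a2⟩
  · exact (((e _ _).1 a).1 i k).trans (((e _ _).1 a).1 j k').symm
  · obtain ⟨w, hw⟩ := num (Set.finite_singleton x)
    exact ⟨w, (e _ _).2 ⟨fun j k => (hw j).1 k, (hw x).2 rfl⟩,
      fun j k => (show j = x from (hw j).1 k) ▸ hx⟩
  · rintro ⟨u, a, b⟩
    exact b x ((e _ _).1 a).2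

lemma proper : Proper spc := by
  intro A hA
  have s := @Computable.snd
  have f := @Computable.fst
  have h : Sig 1 (ℕ × ℕ) fun p => p.1 ∈ A ∧ p.2 = 0 :=
    (sre hA f).and (seq s (Computable.const 0))
  have h' : Sig 1 (ℕ × ℕ) fun _ => (0 : ℕ) = 1 := seq (Computable.const 0) (Computable.const 1)
  obtain ⟨P, hP, e⟩ := mk h
  obtain ⟨Q, hQ, e'⟩ := mk h'
  refine ⟨⟨P, ⟨⟨hP, fun x u v a b => ((e _ _).1 a).2.trans ((e _ _).1 b).2.symm⟩,
    fun x u a i j k => ?_⟩, Set.ext fun x => ⟨fun hx => ⟨0, (e _ _).2 ⟨hx, rfl⟩, by simp⟩,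
      fun ⟨u, a, _⟩ => ((e _ _).1 a).1⟩⟩,
    ⟨Q, ⟨⟨hQ, by simp [e']⟩, by simp [e']⟩, Set.ext fun x => by simp [app, e']⟩⟩
  obtain rfl : u = 0 := ((e _ _).1 a).2
  simp at k

/-- The comparison of the fractions coded by two numbers. -/
def le (n m : ℕ) : Prop := n.unpair.1 * (m.unpair.2 + 1) ≤ m.unpair.1 * (n.unpair.2 + 1)

lemma le_comp {f g : α → ℕ} (hf : Computable f) (hg : Computable g) :
    ComputablePred fun a => le (f a) (g a) :=
  cp (p := fun q : ℕ × ℕ => q.1 ≤ q.2) Primrec.nat_le.computablePred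
    ((Primrec.nat_mul.to_comp.comp (u1.comp hf) (Computable.succ.comp (u2.comp hg))).pair
      (Primrec.nat_mul.to_comp.comp (u1.comp hg) (Computable.succ.comp (u2.comp hf))))

lemma le_iff (n m : ℕ) : le n m ↔
    (n.unpair.1 : ℝ) / (n.unpair.2 + 1) ≤ (m.unpair.1 : ℝ) / (m.unpair.2 + 1) := by
  rw [div_le_div_iff₀ (by positivity) (by positivity), le]
  norm_cast

lemma semi {C P Q : Set ℕ} (hC : ∀ n m, le n m → m ∈ C → n ∈ C) (hP : P ∈ pc) (hQ : Q ∈ spc) :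
    Le spc (app P (app Q C)) (app Q C) := by
  have s := @Computable.snd
  have f := @Computable.fst
  have h0 : ComputablePred fun q : ℕ × ℕ × ℕ × ℕ =>
      le q.1 q.2.1 ∧ (le q.2.1 q.1 → q.2.2.1 ≤ q.2.2.2) :=
    cand (le_comp f (f.comp s)) (cimp (le_comp (f.comp s) f)
      (cp (p := fun q : ℕ × ℕ => q.1 ≤ q.2) Primrec.nat_le.computablePred (s.comp s)))
  have h : Sig 1 (ℕ × ℕ) fun p => ∃ u, Nat.pair p.1 u ∈ P ∧
      ((p.2 = 0 ∧ ∀ i, u.testBit i = true → Nat.pair i 0 ∈ Q) ∨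
      ∃ d c v, (u.testBit d = true ∧ (∀ j, p.2.testBit j = true → j = d) ∧
        p.2.testBit d = true) ∧ (Nat.pair d v ∈ Q ∧ v.testBit c = true) ∧
        ∀ i, u.testBit i = true → ∃ v', Nat.pair i v' ∈ Q ∧ ∀ c', v'.testBit c' = true →
          le c' c ∧ (le c c' → d ≤ i)) :=
    Sig.ex ((mem hP.1 (c1 f) s).and
      (((seq (c1 s) (Computable.const 0)).and
        (allbit (mem hQ.1.1 s (Computable.const 0)) s)).or
      (Sig.ex (Sig.ex (Sig.ex (((bit (c1 (c1 (c1 s))) (c1 (c1 s))).and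
        ((allbit (seq s (c1 (c1 (c1 s)))) (c1 (c1 (c1 (c1 s))))).and
          (bit (c1 (c1 (c1 (c1 s)))) (c1 (c1 s))))).and
        (((mem hQ.1.1 (c1 (c1 s)) s).and (bit s (c1 s))).and
          (allbit (Sig.ex ((mem hQ.1.1 (c1 s) s).and (allbit (CeAlg.cs (cp h0
            (s.pair ((c1 (c1 (c1 (c1 s)))).pair ((c1 (c1 (c1 (c1 (c1 s))))).pair
              (c1 (c1 s))))))) s))) (c1 (c1 (c1 s)))))))))))
  obtain ⟨T, hT, e⟩ := mk h
  refine ⟨T, ⟨⟨hT, fun x w w' k k' => ?_⟩, fun x w k i j a b => ?_⟩,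
    Set.ext fun x => ⟨?_, ?_⟩⟩
  · obtain ⟨u, a, b⟩ := (e _ _).1 k
    obtain ⟨u', a', b'⟩ := (e _ _).1 k'
    obtain rfl := hP.2 _ _ _ a a'
    rcases b with ⟨b1, b2⟩ | ⟨d, c, v, ⟨b1, b2, b3⟩, ⟨b4, b5⟩, b6⟩ <;>
      rcases b' with ⟨g1, g2⟩ | ⟨d', c', v', ⟨g1, g2, g3⟩, ⟨g4, g5⟩, g6⟩
    · exact b1.trans g1.symm
    · obtain rfl := hQ.1.2 _ _ _ (b2 _ g1) g4
      simp at g5
    · obtain rfl := hQ.1.2 _ _ _ (g2 _ b1) b4
      simp at b5
    · obtain ⟨y, y1, y2⟩ := b6 _ g1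
      obtain ⟨z, z1, z2⟩ := g6 _ b1
      obtain rfl := hQ.1.2 _ _ _ y1 g4
      obtain rfl := hQ.1.2 _ _ _ z1 b4
      obtain rfl : d = d' := le_antisymm ((y2 _ g5).2 (z2 _ b5).1) ((z2 _ b5).2 (y2 _ g5).1)
      exact beq fun j => ⟨fun k => b2 j k ▸ g3, fun k => g2 j k ▸ b3⟩
  · obtain ⟨u, -, ⟨b1, -⟩ | ⟨d, c, v, ⟨-, b2, -⟩, -⟩⟩ := (e _ _).1 k
    · obtain rfl : w = 0 := b1
      simp at a
    · exact (b2 i a).trans (b2 j b).symm
  · rintro ⟨u, a, b⟩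
    choose! v hv using b
    by_cases h0 : ∀ i, u.testBit i = true → v i = 0
    · exact ⟨0, (e _ _).2 ⟨u, a, Or.inl ⟨rfl, fun i hi => h0 i hi ▸ (hv i hi).1⟩⟩, by simp⟩
    have hne : {p : ℕ × ℕ | u.testBit p.1 = true ∧ (v p.1).testBit p.2 = true}.Nonempty := by
      by_contra hn
      exact h0 fun i hi => beq fun j => ⟨fun k => (hn ⟨(i, j), hi, k⟩).elim, by simp⟩
    have hfin : {p : ℕ × ℕ | u.testBit p.1 = true ∧ (v p.1).testBit p.2 = true}.Finite :=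
      ((fin u).biUnion fun i _ => (fin (v i)).image (Prod.mk i)).subset fun p hp => by
        simp only [Set.mem_iUnion]
        exact ⟨p.1, hp.1, p.2, hp.2, rfl⟩
    obtain ⟨⟨d, c⟩, ⟨m1, m2⟩, m3⟩ := Set.exists_max_image _ (fun p : ℕ × ℕ => toLex
      ((p.2.unpair.1 : ℝ) / (p.2.unpair.2 + 1), OrderDual.toDual p.1)) hfin hne
    obtain ⟨w, hw⟩ := num (Set.finite_singleton d)
    refine ⟨w, (e _ _).2 ⟨u, a, Or.inr ⟨d, c, v d, ⟨m1, fun j k => (hw j).1 k, (hw d).2 rfl⟩,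
      ⟨(hv d m1).1, m2⟩, fun i hi => ⟨v i, (hv i hi).1, fun c' hc => ?_⟩⟩⟩,
      fun j k => (show j = d from (hw j).1 k) ▸ ⟨v d, hv d m1⟩⟩
    rw [le_iff, le_iff]
    rcases Prod.Lex.toLex_le_toLex.1 (m3 (i, c') ⟨hi, hc⟩) with k | k
    · exact ⟨k.le, fun k' => absurd k (not_lt.2 k')⟩
    · exact ⟨k.1.le, fun _ => k.2⟩
  · rintro ⟨w, a, b⟩
    obtain ⟨u, a1, ⟨-, b2⟩ | ⟨d, c, v, ⟨-, -, b3⟩, ⟨b4, b5⟩, b6⟩⟩ := (e _ _).1 a
    · exact ⟨u, a1, fun i hi => ⟨0, b2 i hi, by simp⟩⟩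
    · obtain ⟨y, y1, y2⟩ := b d b3
      obtain rfl := hQ.1.2 _ _ _ y1 b4
      refine ⟨u, a1, fun i hi => ?_⟩
      obtain ⟨z, z1, z2⟩ := b6 i hi
      exact ⟨z, z1, fun j k => hC _ _ (z2 j k).1 (y2 c b5)⟩

lemma cut : ∃ C : Set ℕ, (∀ n m, le n m → m ∈ C → n ∈ C) ∧ ¬ RE C := by
  by_contra h
  push Not at h
  choose g hg using fun r : ℝ => h {n | (n.unpair.1 : ℝ) / (n.unpair.2 + 1) < Real.exp r}
    fun n m k k' => lt_of_le_of_lt ((le_iff n m).1 k) k'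
  have key : ∀ r t, r < t → g r ≠ g t := by
    intro r t k k'
    obtain ⟨q, q1, q2⟩ := exists_rat_btwn (Real.exp_lt_exp.2 k)
    have q0 : 0 < q := by exact_mod_cast (Real.exp_pos r).trans q1
    have e : (((Nat.pair q.num.toNat (q.den - 1)).unpair.1 : ℕ) : ℝ) /
        (((Nat.pair q.num.toNat (q.den - 1)).unpair.2 : ℕ) + 1) = q := by
      rw [Nat.unpair_pair, Rat.cast_def]
      congr 1
      · exact_mod_cast Int.toNat_of_nonneg (Rat.num_pos.2 q0).le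
      · exact_mod_cast Nat.sub_add_cancel q.den_pos
    have := Set.ext_iff.1 ((hg r).trans (k' ▸ (hg t).symm)) (Nat.pair q.num.toNat (q.den - 1))
    simp only [Set.mem_ofPred_eq, e] at this
    exact absurd (this.2 q2) (not_lt.2 q1.le)
  exact not_countable (α := ℝ) (Function.Injective.countable (f := g) fun r t k => by
    by_contra hn
    rcases lt_or_gt_of_ne hn with k' | k'
    · exact key _ _ k' k
    · exact key _ _ k' k.symm)

lemma gen {P : ℕ → Set ℕ → Prop} (h : ∀ (e L : ℕ) (S : Set ℕ), ∃ L' > L, ∃ S' : Set ℕ,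
    (∀ i < L, i ∈ S' ↔ i ∈ S) ∧ ∀ B : Set ℕ, (∀ i < L', i ∈ B ↔ i ∈ S') → P e B) :
    ∃ B, ∀ e, P e B := by
  choose l hl s hs using h
  obtain ⟨c, c1⟩ : ∃ c : ℕ → ℕ × Set ℕ,
      ∀ e, c (e + 1) = (l e (c e).1 (c e).2, s e (c e).1 (c e).2) :=
    ⟨fun n => Nat.rec (0, ∅) (fun e p => (l e p.1 p.2, s e p.1 p.2)) n, fun _ => rfl⟩
  have m : StrictMono fun e => (c e).1 := strictMono_nat_of_lt_succ fun e => by
    rw [c1]; exact hl _ _ _
  have k : ∀ a b, a ≤ b → ∀ i < (c a).1, i ∈ (c b).2 ↔ i ∈ (c a).2 := by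
    intro a b hab i hi
    induction b, hab using Nat.le_induction with
    | base => rfl
    | succ b hab ih =>
      rw [c1, ← ih]
      exact (hs _ _ _).1 i (hi.trans_le (m.monotone hab))
  refine ⟨{i | i ∈ (c (i + 1)).2}, fun e => (hs e (c e).1 (c e).2).2 _ fun i hi => ?_⟩
  have h1 : i < (c (e + 1)).1 := by rw [c1]; exact hi
  have h2 : i < (c (i + 1)).1 := m.le_apply (x := i + 1)
  have h3 := k _ _ (le_max_left (e + 1) (i + 1)) i h1
  rw [k _ _ (le_max_right (e + 1) (i + 1)) i h2, c1 e] at h3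
  exact h3

lemma distinct : ∃ A B, Le pc A B ∧ ¬ Le spc A B := by
  have s := @Computable.snd
  have f := @Computable.fst
  have d : Computable fun p : ℕ × ℕ => 2 * p.1 :=
    Primrec.nat_mul.to_comp.comp (Computable.const 2) f
  have h : Sig 1 (ℕ × ℕ) fun p => (∀ j, p.2.testBit j = true → j = 2 * p.1 ∨ j = 2 * p.1 + 1) ∧
      p.2.testBit (2 * p.1) = true ∧ p.2.testBit (2 * p.1 + 1) = true :=
    (allbit ((seq s (c1 d)).or (seq s (c1 (Computable.succ.comp d)))) s).and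
      ((bit s d).and (bit s (Computable.succ.comp d)))
  obtain ⟨I, hI, e⟩ := mk h
  obtain ⟨B, hB⟩ := gen (P := fun e B => CeAlg.W e ∈ spc →
      {n | 2 * n ∈ B ∧ 2 * n + 1 ∈ B} ≠ app (CeAlg.W e) B) fun e L S => by
    by_cases h : ∃ u, Nat.pair L u ∈ CeAlg.W e ∧ ∀ m, u.testBit m = true → m < L → m ∈ S
    · obtain ⟨u, a, b⟩ := h
      by_cases hs : CeAlg.W e ∈ spc
      swap
      · exact ⟨L + 1, by omega, S, by simp, fun _ _ h => absurd h hs⟩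
      obtain ⟨k, k1, k2⟩ : ∃ k, (k = 2 * L ∨ k = 2 * L + 1) ∧ ¬ u.testBit k = true := by
        by_contra hn
        push Not at hn
        have := hs.2 _ _ a _ _ (hn _ (Or.inl rfl)) (hn _ (Or.inr rfl))
        omega
      refine ⟨2 * L + 2 + u, by omega, {i | (i < L → i ∈ S) ∧ i ≠ k},
        fun i hi => ⟨fun h => h.1 hi, fun h => ⟨fun _ => h, by omega⟩⟩, fun B hB _ hn => ?_⟩
      have : L ∈ app (CeAlg.W e) B := ⟨u, a, fun i hi => (hB i (by have := lt_bit hi; omega)).2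
        ⟨b i hi, fun h => k2 (h ▸ hi)⟩⟩
      rw [← hn] at this
      rcases k1 with rfl | rfl
      · exact ((hB _ (by omega)).1 this.1).2 rfl
      · exact ((hB _ (by omega)).1 this.2).2 rfl
    · refine ⟨2 * L + 2, by omega, {i | i < L → i ∈ S},
        fun i hi => ⟨fun h => h hi, fun h _ => h⟩, fun B hB _ hn => h ?_⟩
      have : L ∈ app (CeAlg.W e) B := by
        rw [← hn]
        exact ⟨(hB _ (by omega)).2 fun h => by omega, (hB _ (by omega)).2 fun h => by omega⟩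
      obtain ⟨u, a, b⟩ := this
      exact ⟨u, a, fun m hm k => (hB m (by omega)).1 (b m hm) k⟩
  refine ⟨{n | 2 * n ∈ B ∧ 2 * n + 1 ∈ B}, B, ⟨I, ⟨hI, fun x u v a b => ?_⟩,
    Set.ext fun x => ⟨fun hx => ?_, ?_⟩⟩, ?_⟩
  · obtain ⟨a1, a2, a3⟩ := (e _ _).1 a
    obtain ⟨b1, b2, b3⟩ := (e _ _).1 b
    exact beq fun j => ⟨fun k => (a1 j k).elim (· ▸ b2) (· ▸ b3),
      fun k => (b1 j k).elim (· ▸ a2) (· ▸ a3)⟩
  · obtain ⟨w, hw⟩ := num ((Set.finite_singleton (2 * x + 1)).insert (2 * x))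
    exact ⟨w, (e _ _).2 ⟨fun j k => (hw j).1 k, (hw _).2 (Or.inl rfl), (hw _).2 (Or.inr rfl)⟩,
      fun j k => ((hw j).1 k).elim (· ▸ hx.1) fun k => (show j = _ from k) ▸ hx.2⟩
  · rintro ⟨u, a, b⟩
    exact ⟨b _ ((e _ _).1 a).2.1, b _ ((e _ _).1 a).2.2⟩
  · rintro ⟨P, hP, k⟩
    obtain ⟨n, rfl⟩ := hP.1.1
    exact hB n hP k

/-- Two distinct proper e-reducibilities, one inside the other, with a contiguous degree. -/
theorem result : ERed spc ∧ ERed pc ∧ Proper spc ∧ Proper pc ∧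
    (∀ A B, Le spc A B → Le pc A B) ∧ (∃ A B, Le pc A B ∧ ¬ Le spc A B) ∧
    ∃ C, ¬ Eqv pc C ∅ ∧ ∀ A B, Eqv pc A C → Eqv pc B C → Eqv spc A B := by
  have sub : ∀ A B, Le spc A B → Le pc A B := fun A B ⟨P, a, b⟩ => ⟨P, a.1, b⟩
  obtain ⟨I, hI, e⟩ := ident
  have tr : ∀ A B C, Le spc A B → Le spc B C → Le spc A C := by
    rintro _ _ C ⟨P, a, rfl⟩ ⟨Q, b, rfl⟩
    obtain ⟨T, -, k1, k2⟩ := comp a.1 b.1
    exact ⟨T, k2 a b, k1 C⟩
  obtain ⟨C, h1, h2⟩ := cut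
  have k1 : ∀ A, Le pc A C → Le spc A C := by
    rintro _ ⟨P, a, rfl⟩
    simpa only [← e] using semi h1 a hI
  have k2 : ∀ A, Eqv pc A C → Le spc C A := by
    rintro A ⟨a, P, b, c⟩
    obtain ⟨Q, d, rfl⟩ := k1 A a
    simpa only [← c] using semi h1 b d
  refine ⟨⟨fun P h => h.1.1, fun A => ⟨I, hI, e A⟩, tr⟩,
    ⟨fun P h => h.1, fun A => ⟨I, hI.1, e A⟩, ?_⟩, proper,
    fun A h => ⟨sub _ _ (proper A h).1, sub _ _ (proper A h).2⟩, sub, distinct, C, ?_,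
    fun A B a b => ⟨tr _ _ _ (k1 A a.1) (k2 B b), tr _ _ _ (k1 B b.1) (k2 A a)⟩⟩
  · rintro _ _ C ⟨P, a, rfl⟩ ⟨Q, b, rfl⟩
    obtain ⟨T, k0, k1, -⟩ := comp a b
    exact ⟨T, k0, k1 C⟩
  · rintro ⟨⟨P, a, b⟩, -⟩
    obtain ⟨s, -, k⟩ := CeAlg.w_idx (β := ℕ) (mem a.1 Computable.snd (Computable.const 0))
    refine h2 ⟨s 0, Set.ext fun x => Iff.trans ?_ (k 0 x).symm⟩
    rw [b]
    exact ⟨fun ⟨u, c, d⟩ => (beq fun j => ⟨fun k => (d j k).elim, by simp⟩ : u = 0) ▸ c,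
      fun c => ⟨0, c, by simp⟩⟩

end Pool.Agent.Results.MP_9a6b8c_lc.Yes
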